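import Mathlib

/-!
# The least order of an abelian group with unique multiset sums is `2 ^ (n - 1)`

Lower bound: translate the family so that `g 0 = 0`. If `|G| < 2 ^ (n - 1)`, two different subsets
`I, J` of the other `n - 1` indices have the same sum; take `|I| ≤ |J|`. Then the vector
`1 + 1_I - 1_J` on these indices, completed at the index `0`, is a second solution.
-/

set_option autoImplicit false

namespace Pool.Agent.Results.MP_6623a1_co.ExactValue

open Finset

/-- The family `g` has unique multiset sums: the only vector `k` of natural numbers with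
`∑ j, k j = n` and `∑ j, k j • g j = ∑ j, g j` is the all-ones vector. -/
def UniqueMultisetSums {G : Type*} [AddCommGroup G] {n : ℕ} (g : Fin n → G) : Prop :=
  ∀ k : Fin n → ℕ, ∑ j, k j = n → ∑ j, k j • g j = ∑ j, g j → k = fun _ => 1

/-- The orders of the finite abelian groups that contain a family of `n` elements with unique
multiset sums. -/
def orders (n : ℕ) : Set ℕ :=
  {N | ∃ (G : Type) (_ : AddCommGroup G) (_ : Finite G) (g : Fin n → G),
    UniqueMultisetSums g ∧ Nat.card G = N}

/-- Lower bound, in every universe. -/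
theorem lower {G : Type*} [AddCommGroup G] [Finite G] {m : ℕ} (g : Fin (m + 1) → G)
    (hg : UniqueMultisetSums g) : 2 ^ m ≤ Nat.card G := by
  classical
  by_contra hlt
  push Not at hlt
  have := Fintype.ofFinite G
  -- subset sums of the translated family
  let s : Finset (Fin m) → G := fun I => ∑ i ∈ I, (g i.succ - g 0)
  have hcard : Fintype.card G < Fintype.card (Finset (Fin m)) := by
    rw [Fintype.card_finset, Fintype.card_fin, ← Nat.card_eq_fintype_card]
    exact hlt
  obtain ⟨I, J, hIJ, hs⟩ := Fintype.exists_ne_map_eq_of_card_lt s hcard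
  wlog hle : I.card ≤ J.card generalizing I J with H
  · exact H J I (Ne.symm hIJ) hs.symm (by omega)
  -- the second solution
  let k' : Fin m → ℕ := fun i => (if i ∈ I then 2 else 1) - (if i ∈ J then 1 else 0)
  have hk' : ∀ i, k' i + (if i ∈ J then 1 else 0) = 1 + (if i ∈ I then 1 else 0) := by
    intro i
    simp only [k']
    split_ifs <;> omega
  have hsum : ∑ i, k' i + J.card = m + I.card := by
    have h1 : ∑ i, (k' i + (if i ∈ J then 1 else 0)) = ∑ i, (1 + (if i ∈ I then 1 else 0)) :=
      Finset.sum_congr rfl fun i _ => hk' i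
    rw [Finset.sum_add_distrib, Finset.sum_add_distrib] at h1
    simpa using h1
  let k : Fin (m + 1) → ℕ := Fin.cons (m + 1 - ∑ i, k' i) k'
  have hk0 : k 0 = m + 1 - ∑ i, k' i := rfl
  have hks : ∀ i : Fin m, k i.succ = k' i := fun i => rfl
  have hktot : ∑ j, k j = m + 1 := by
    rw [Fin.sum_univ_succ, hk0]
    simp only [hks]
    omega
  have hval : ∑ j, k j • g j = ∑ j, g j := by
    have e1 : ∑ j, k j • g j = ∑ j, k j • (g j - g 0) + (∑ j, k j) • g 0 := by
      rw [Finset.sum_smul, ← Finset.sum_add_distrib]
      refine Finset.sum_congr rfl fun j _ => ?_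
      rw [smul_sub, sub_add_cancel]
    have e2 : ∑ j, g j = ∑ j, (g j - g 0) + (m + 1) • g 0 := by
      have : (m + 1) • g 0 = ∑ _j : Fin (m + 1), g 0 := by simp
      rw [this, ← Finset.sum_add_distrib]
      exact Finset.sum_congr rfl fun j _ => (sub_add_cancel _ _).symm
    rw [e1, e2, hktot]
    congr 1
    rw [Fin.sum_univ_succ, Fin.sum_univ_succ]
    simp only [sub_self, smul_zero, zero_add, hks]
    have e3 : ∑ i : Fin m, k' i • (g i.succ - g 0) + s J =
        ∑ i : Fin m, (g i.succ - g 0) + s I := by
      have hJ : s J = ∑ i : Fin m, (if i ∈ J then 1 else 0) • (g i.succ - g 0) := by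
        simp [s, Finset.sum_ite_mem]
      have hI : s I = ∑ i : Fin m, (if i ∈ I then 1 else 0) • (g i.succ - g 0) := by
        simp [s, Finset.sum_ite_mem]
      rw [hJ, hI, ← Finset.sum_add_distrib, ← Finset.sum_add_distrib]
      refine Finset.sum_congr rfl fun i _ => ?_
      rw [← add_smul, hk' i, add_smul, one_smul]
    rw [hs] at e3
    exact add_right_cancel e3
  have hone := hg k hktot hval
  apply hIJ
  ext i
  have h1 : k' i = 1 := by
    rw [← hks]
    exact congrFun hone i.succ
  have h2 := hk' i
  rw [h1] at h2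
  by_cases hi : i ∈ I
  · by_cases hj : i ∈ J
    · exact ⟨fun _ => hj, fun _ => hi⟩
    · rw [if_pos hi, if_neg hj] at h2
      omega
  · by_cases hj : i ∈ J
    · rw [if_neg hi, if_pos hj] at h2
      omega
    · exact ⟨fun h => absurd h hi, fun h => absurd h hj⟩

/-- Upper bound: the family `0, e_1, …, e_m` of `(ℤ/2)^m`. -/
theorem upper (m : ℕ) : 2 ^ m ∈ orders (m + 1) := by
  classical
  refine ⟨Fin m → ZMod 2, inferInstance, inferInstance,
    Fin.cons 0 (fun i => Pi.single i 1), ?_, ?_⟩
  · intro k hk hsum
    rw [Fin.sum_univ_succ] at hk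
    rw [Fin.sum_univ_succ, Fin.sum_univ_succ] at hsum
    simp only [Fin.cons_zero, smul_zero, zero_add, Fin.cons_succ] at hsum
    have hodd : ∀ i : Fin m, ((k i.succ : ℕ) : ZMod 2) = 1 := by
      intro i
      have h := congrFun hsum i
      simp only [Finset.sum_apply, Pi.smul_apply, Pi.single_apply] at h
      simpa using h
    have hodd' : ∀ i : Fin m, k i.succ % 2 = 1 := by
      intro i
      have h : ((k i.succ : ℕ) : ZMod 2) = ((1 : ℕ) : ZMod 2) := by simpa using hodd i
      have := (ZMod.natCast_eq_natCast_iff' _ _ _).1 h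
      simpa using this
    -- write `k i.succ = 1 + 2 * l i`
    have hsum1 : ∑ i : Fin m, k i.succ = m + 2 * ∑ i : Fin m, k i.succ / 2 := by
      have : ∀ i : Fin m, k i.succ = 1 + 2 * (k i.succ / 2) := by
        intro i
        have := hodd' i
        omega
      calc ∑ i : Fin m, k i.succ = ∑ i : Fin m, (1 + 2 * (k i.succ / 2)) :=
            Finset.sum_congr rfl fun i _ => this i
        _ = m + 2 * ∑ i : Fin m, k i.succ / 2 := by
            rw [Finset.sum_add_distrib, Finset.mul_sum]; simp
    have hzero : ∑ i : Fin m, k i.succ / 2 = 0 := by omega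
    have hz : ∀ i : Fin m, k i.succ / 2 = 0 := by
      intro i
      exact (Finset.sum_eq_zero_iff.1 hzero) i (Finset.mem_univ i)
    funext j
    refine Fin.cases ?_ (fun i => ?_) j
    · rw [hzero] at hsum1
      omega
    · have h1 := hodd' i
      have h2 := hz i
      omega
  · rw [Nat.card_eq_fintype_card]
    simp

/-- **Q1.** For every `n ≥ 1` the least order of a finite abelian group that contains a family of
`n` elements with unique multiset sums is exactly `2 ^ (n - 1)`. -/
theorem result (n : ℕ) (hn : 1 ≤ n) : IsLeast (orders n) (2 ^ (n - 1)) := by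
  obtain ⟨m, rfl⟩ : ∃ m, n = m + 1 := ⟨n - 1, by omega⟩
  rw [Nat.add_sub_cancel]
  refine ⟨upper m, ?_⟩
  rintro N ⟨G, _, _, g, hg, rfl⟩
  exact lower g hg

end Pool.Agent.Results.MP_6623a1_co.ExactValue
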